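import Pool.Agent.Helper66.DC.Goals4

/-! Packet DC4-NUM. -/

namespace Pool.Agent.Helper26.DC

lemma choose_two_mul {h K r : ℕ} (hh : 8 * K ^ 2 ≤ h + 1) (hr : r + 1 ≤ K ^ 2) :
    2 * h.choose r ≤ h.choose (r + 1) := by
  have h1 := Nat.choose_succ_right_eq h r
  have h2 : 2 * (r + 1) ≤ h - r := by omega
  have h3 : 2 * h.choose r * (r + 1) ≤ h.choose (r + 1) * (r + 1) := by
    rw [h1]
    calc 2 * h.choose r * (r + 1) = h.choose r * (2 * (r + 1)) := by ring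
      _ ≤ h.choose r * (h - r) := Nat.mul_le_mul_left _ h2
  exact Nat.le_of_mul_le_mul_right h3 (Nat.succ_pos r)

lemma choose_two_pow {h K r : ℕ} (hh : 8 * K ^ 2 ≤ h + 1) :
    ∀ j : ℕ, r + j ≤ K ^ 2 → 2 ^ j * h.choose r ≤ h.choose (r + j) := by
  intro j
  induction j with
  | zero => intro _; simp
  | succ j ih =>
    intro hj
    have h1 := ih (by omega)
    have h2 := choose_two_mul (r := r + j) hh (by omega)
    calc 2 ^ (j + 1) * h.choose r = 2 * (2 ^ j * h.choose r) := by ring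
      _ ≤ 2 * h.choose (r + j) := Nat.mul_le_mul_left _ h1
      _ ≤ h.choose (r + (j + 1)) := h2

lemma real_ineq (K m h : ℕ) (hm : 16 * (K + 1) ^ 2 ≤ m) (hK : 1 ≤ K) (hh : m ≤ 2 * h + 2) :
    (2 * (K + 1)) ^ K * K ^ (K + 1) * (m + (K + 1) + 1) ^ (K + 2)
      ≤ m * (h + 1 - 2 * (K + 1)) ^ (2 * (K + 1)) := by
  have hm2 : 16 * (K + 1) ≤ m := le_trans (by nlinarith) hm
  have e1 : 8 * (m + (K + 1) + 1) ≤ 9 * m := by nlinarith
  have e2 : 3 * m ≤ 8 * (h + 1 - 2 * (K + 1)) := by omega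
  obtain ⟨a, ha⟩ : ∃ a : ℕ, a = h + 1 - 2 * (K + 1) := ⟨_, rfl⟩
  obtain ⟨b, hb⟩ : ∃ b : ℕ, b = m + (K + 1) + 1 := ⟨_, rfl⟩
  rw [← ha] at e2 ⊢
  rw [← hb] at e1 ⊢
  have e1' : (b : ℝ) ≤ 9 / 8 * m := by
    have : (8 * b : ℝ) ≤ 9 * m := by exact_mod_cast e1
    linarith
  have e2' : (3 / 8 : ℝ) * m ≤ a := by
    have : (3 * m : ℝ) ≤ 8 * a := by exact_mod_cast e2
    linarith
  have hm' : (16 : ℝ) * (K + 1) ^ 2 ≤ m := by exact_mod_cast hm
  have hm0 : (0 : ℝ) ≤ m := Nat.cast_nonneg m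
  have hK0 : (0 : ℝ) ≤ K := Nat.cast_nonneg K
  have key : ((2 * (K + 1) : ℝ)) ^ K * (K : ℝ) ^ (K + 1) * (b : ℝ) ^ (K + 2)
      ≤ m * (a : ℝ) ^ (2 * (K + 1)) := by
    have s1 : (b : ℝ) ^ (K + 2) ≤ (9 / 8 * m) ^ (K + 2) :=
      pow_le_pow_left₀ (Nat.cast_nonneg b) e1' _
    have s2 : ((3 / 8 : ℝ) * m) ^ (2 * (K + 1)) ≤ (a : ℝ) ^ (2 * (K + 1)) :=
      pow_le_pow_left₀ (by positivity) e2' _
    have s3 : (K : ℝ) ^ (K + 1) ≤ ((K : ℝ) + 1) ^ (K + 1) :=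
      pow_le_pow_left₀ hK0 (by linarith) _
    have s4 : ((16 : ℝ) * (K + 1) ^ 2) ^ (K + 1) ≤ (m : ℝ) ^ (K + 1) :=
      pow_le_pow_left₀ (by positivity) hm' _
    calc ((2 * (K + 1) : ℝ)) ^ K * (K : ℝ) ^ (K + 1) * (b : ℝ) ^ (K + 2)
        ≤ ((2 * (K + 1) : ℝ)) ^ K * ((K : ℝ) + 1) ^ (K + 1) * (9 / 8 * m) ^ (K + 2) := by
          gcongr
      _ = (81 / 64) * (9 / 4) ^ K * ((K + 1 : ℝ) ^ K * (K + 1 : ℝ) ^ (K + 1)) * (m * (m : ℝ) ^ (K + 1)) := by
          have t1 : ((9 : ℝ) / 4) ^ K = 2 ^ K * (9 / 8) ^ K := by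
            rw [← mul_pow]; norm_num
          rw [t1, mul_pow, mul_pow]
          ring
      _ ≤ (9 / 4) * (9 / 4) ^ K * ((K + 1 : ℝ) ^ (K + 1) * (K + 1 : ℝ) ^ (K + 1)) *
            (m * (m : ℝ) ^ (K + 1)) := by
          have u1 : ((K : ℝ) + 1) ^ K ≤ ((K : ℝ) + 1) ^ (K + 1) :=
            pow_le_pow_right₀ (by linarith) (Nat.le_succ K)
          have u2 : (81 / 64 : ℝ) * (9 / 4) ^ K ≤ (9 / 4) * (9 / 4) ^ K :=
            mul_le_mul_of_nonneg_right (by norm_num) (by positivity)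
          have u3 : (K + 1 : ℝ) ^ K * (K + 1 : ℝ) ^ (K + 1) ≤
              (K + 1 : ℝ) ^ (K + 1) * (K + 1 : ℝ) ^ (K + 1) :=
            mul_le_mul_of_nonneg_right u1 (by positivity)
          exact mul_le_mul_of_nonneg_right
            (mul_le_mul u2 u3 (by positivity) (by positivity)) (by positivity)
      _ = m * ((9 / 4) * (9 / 4) ^ K * ((K + 1 : ℝ) ^ (K + 1) * (K + 1 : ℝ) ^ (K + 1))) *
            (m : ℝ) ^ (K + 1) := by ring
      _ = m * ((9 / 64) ^ (K + 1) * ((16 : ℝ) * (K + 1) ^ 2) ^ (K + 1)) * (m : ℝ) ^ (K + 1) := by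
          have t2 : ((9 : ℝ) / 64) ^ (K + 1) * ((16 : ℝ) * (K + 1) ^ 2) ^ (K + 1)
              = (9 / 4) * (9 / 4) ^ K * ((K + 1 : ℝ) ^ (K + 1) * (K + 1 : ℝ) ^ (K + 1)) := by
            have t3 : ((9 : ℝ) / 4) * (9 / 4) ^ K = (9 / 4) ^ (K + 1) := by ring
            rw [t3, ← mul_pow, ← mul_pow, ← mul_pow]
            congr 1
            ring
          rw [t2]
      _ ≤ m * ((9 / 64) ^ (K + 1) * (m : ℝ) ^ (K + 1)) * (m : ℝ) ^ (K + 1) := by
          gcongr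
      _ = m * ((3 / 8 : ℝ) * m) ^ (2 * (K + 1)) := by
          have t4 : ((9 : ℝ) / 64) ^ (K + 1) = (3 / 8) ^ (2 * (K + 1)) := by
            rw [pow_mul]; norm_num
          rw [t4, mul_pow]
          ring
      _ ≤ m * (a : ℝ) ^ (2 * (K + 1)) := by gcongr
  exact_mod_cast key

lemma base (K m h : ℕ) (hm : 16 * (K + 1) ^ 2 ≤ m) (hK : 1 ≤ K) (hh : m ≤ 2 * h + 2) :
    K ^ (K + 1) * (m + (K + 1) + 1).choose (K + 2) ≤ m * h.choose (2 * (K + 1)) := by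
  have r := real_ineq K m h hm hK hh
  have f1 : (2 * (K + 1)).factorial ≤ (K + 2).factorial * (2 * (K + 1)) ^ K := by
    have e : 2 * (K + 1) = (K + 2) + K := by ring
    have g1 := Nat.factorial_mul_ascFactorial (K + 2) K
    have g2 := Nat.ascFactorial_le_pow_add (K + 2) K
    rw [e, ← g1]
    exact Nat.mul_le_mul_left _ g2
  have f2 : (K + 2).factorial * (m + (K + 1) + 1).choose (K + 2) ≤ (m + (K + 1) + 1) ^ (K + 2) := by
    rw [← Nat.descFactorial_eq_factorial_mul_choose]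
    exact Nat.descFactorial_le_pow _ _
  have f3 : (h + 1 - 2 * (K + 1)) ^ (2 * (K + 1)) ≤
      (2 * (K + 1)).factorial * h.choose (2 * (K + 1)) := by
    rw [← Nat.descFactorial_eq_factorial_mul_choose]
    exact Nat.pow_sub_le_descFactorial _ _
  have hpos : 0 < (2 * (K + 1)).factorial := Nat.factorial_pos _
  refine Nat.le_of_mul_le_mul_left (c := (2 * (K + 1)).factorial) ?_ hpos
  calc (2 * (K + 1)).factorial * (K ^ (K + 1) * (m + (K + 1) + 1).choose (K + 2))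
      ≤ ((K + 2).factorial * (2 * (K + 1)) ^ K) * (K ^ (K + 1) * (m + (K + 1) + 1).choose (K + 2)) :=
        Nat.mul_le_mul_right _ f1
    _ = (2 * (K + 1)) ^ K * K ^ (K + 1) * ((K + 2).factorial * (m + (K + 1) + 1).choose (K + 2)) := by
        ring
    _ ≤ (2 * (K + 1)) ^ K * K ^ (K + 1) * (m + (K + 1) + 1) ^ (K + 2) :=
        Nat.mul_le_mul_left _ f2
    _ ≤ m * (h + 1 - 2 * (K + 1)) ^ (2 * (K + 1)) := r
    _ ≤ m * ((2 * (K + 1)).factorial * h.choose (2 * (K + 1))) := Nat.mul_le_mul_left _ f3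
    _ = (2 * (K + 1)).factorial * (m * h.choose (2 * (K + 1))) := by ring

theorem h_num : Pool.Agent.Helper66.DC.Q_NUM := by
  intro K m g k hK hm hg hk hkK
  have hch : (m + (K + 1)).choose m = (m + (K + 1)).choose (K + 1) := by
    rw [Nat.choose_symm_add]
  rw [hch] at hg
  have hKK : 4 ≤ K ^ 2 := by nlinarith
  have hh1 : m ≤ 2 * ((m - 1) / 2) + 2 := by omega
  have hh2 : 8 * K ^ 2 ≤ (m - 1) / 2 + 1 := by omega
  induction k, hk using Nat.le_induction with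
  | base =>
    obtain ⟨K', rfl⟩ : ∃ K' : ℕ, K = K' + 1 := ⟨K - 1, by omega⟩
    have b := base K' m ((m - 1) / 2) hm (by omega) hh1
    have hmpos : 0 < m := by omega
    have e1 : (K' + 1 - 1) * (2 - 1) = K' := by omega
    have e2 : (K' + 1) * 2 = 2 * (K' + 1) := by ring
    rw [e1, e2]
    refine Nat.lt_of_mul_lt_mul_left (a := m) ?_
    have hKpos : 0 < K' ^ (K' + 1) := pow_pos (by omega) _
    calc m * (K' ^ (K' + 1) * g) = K' ^ (K' + 1) * (g * m) := by ring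
      _ < K' ^ (K' + 1) * (m + (K' + 1 + 1)).choose (K' + 1 + 1) :=
          Nat.mul_lt_mul_of_pos_left hg hKpos
      _ ≤ m * ((m - 1) / 2).choose (2 * (K' + 1)) := b
  | succ k hk ih =>
    have i1 := ih (by omega)
    have i2 := choose_two_pow (K := K) (r := K * k) hh2 K (by nlinarith)
    have i3 : (K - 1) * (k + 1 - 1) ≤ 2 * ((K - 1) * (k - 1)) := by
      have : k + 1 - 1 ≤ 2 * (k - 1) := by omega
      calc (K - 1) * (k + 1 - 1) ≤ (K - 1) * (2 * (k - 1)) := Nat.mul_le_mul_left _ this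
        _ = 2 * ((K - 1) * (k - 1)) := by ring
    have e3 : K * (k + 1) = K * k + K := by ring
    rw [e3]
    calc ((K - 1) * (k + 1 - 1)) ^ K * g ≤ (2 * ((K - 1) * (k - 1))) ^ K * g :=
          Nat.mul_le_mul_right _ (Nat.pow_le_pow_left i3 K)
      _ = 2 ^ K * (((K - 1) * (k - 1)) ^ K * g) := by rw [mul_pow]; ring
      _ < 2 ^ K * ((m - 1) / 2).choose (K * k) :=
          Nat.mul_lt_mul_of_pos_left i1 (by positivity)
      _ ≤ ((m - 1) / 2).choose (K * k + K) := i2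

end Pool.Agent.Helper26.DC
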