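import Pool.Agent.Helper69.DC.Goals
import Pool.Agent.Helper28.Ball.Polar

/-!
Polarisation (packet DC-ORTH).
-/

namespace Pool.Agent.Helper26.DC

open MvPolynomial Finset ComplexConjugate Pool.Agent.Helper69.DC

/-- The conjugated polynomial in the variables `β'`, `b`. -/
noncomputable def fbar {m N : ℕ} (f : Fin (N + 1) → MvPolynomial (Fin m ⊕ Unit) ℂ)
    (k : Fin (N + 1)) : MvPolynomial (V3 m) ℂ :=
  rename (Sum.elim (fun i => Sum.inr (Sum.inl i)) fun _ => Sum.inr (Sum.inr ()))
    (Pool.Agent.Helper28.Ball.cj (f k))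

lemma eval_gg' {m N : ℕ} (f : Fin (N + 1) → MvPolynomial (Fin m ⊕ Unit) ℂ)
    (k : Fin (N + 1)) (β γ : Fin m → ℂ) (b : ℂ) :
    eval (pt β γ b) (gg f k) = fv f β ((∑ i, β i * γ i) - b) k := by
  unfold gg fv
  have h : eval (pt β γ b) (aeval (Sum.elim (fun i => X (Sum.inl i))
      (fun _ => ∑ i, X (Sum.inl i) * X (Sum.inr (Sum.inl i)) - X (Sum.inr (Sum.inr ())))) (f k))
      = eval (fun x => eval (pt β γ b) ((Sum.elim (fun i => X (Sum.inl i))
      (fun _ => ∑ i, X (Sum.inl i) * X (Sum.inr (Sum.inl i)) - X (Sum.inr (Sum.inr ()))) :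
        Fin m ⊕ Unit → MvPolynomial (V3 m) ℂ) x)) (f k) := by
    induction (f k) using MvPolynomial.induction_on with
    | C a => simp
    | add p q hp hq => simp only [map_add, hp, hq]
    | mul_X p i hp => simp only [map_mul, hp, aeval_X, eval_X]
  rw [h]
  congr 1
  congr 1
  funext x
  rcases x with i | u
  · simp [pt]
  · simp [pt]

lemma eval_fbar {m N : ℕ} (f : Fin (N + 1) → MvPolynomial (Fin m ⊕ Unit) ℂ)
    (k : Fin (N + 1)) (β γ : Fin m → ℂ) (b : ℂ) :
    eval (pt β γ b) (fbar f k) = conj (fv f (fun i => conj (γ i)) (conj b) k) := by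
  unfold fbar fv
  rw [eval_rename, Pool.Agent.Helper28.Ball.eval_cj]
  congr 3
  funext x
  rcases x with i | u
  · simp [pt]
  · simp [pt]

theorem g_orth (h1 : G_LD3) : G_ORTH := by
  intro m N f hf0 β a β' a' hh
  have hP : gg f 0 * fbar f 0 - ∑ j : Fin N, gg f j.succ * fbar f j.succ = 0 := by
    apply h1 m
    intro γ b hb
    have hcb : (∑ i, γ i * conj (γ i)) - b = conj b := by rw [← hb]; ring
    have h2 := hf0 γ (conj b) (by
      unfold Null
      rw [Complex.conj_conj, add_comm]
      exact hb)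
    unfold hf at h2
    simp only [map_sub, map_mul, map_sum, eval_gg', eval_fbar, hcb, Complex.conj_conj]
    exact h2
  have h3 := congrArg (eval (pt β (fun i => conj (β' i)) (conj a'))) hP
  have hca : (∑ i, β i * conj (β' i)) - conj a' = a := by rw [← hh]; ring
  simp only [map_sub, map_mul, map_sum, eval_gg', eval_fbar, hca, Complex.conj_conj,
    map_zero] at h3
  unfold hf
  exact h3

end Pool.Agent.Helper26.DC
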